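import Pool.Agent.Y659.MPS.Stm

/-!
# The orbit of `t` cannot die
-/

set_option autoImplicit false

namespace Pool.Agent.Y781.MPS

open Matrix
open Pool.Agent.Results.MP_8bfff4_mp.ExactValue
open Pool.Agent.Y659.MPS

theorem KLE (hG : St_KLG) : St_KLE := by
  intro D W u x y m t v₁ v₂ p q N la lb hD hp hq hN hW hxy hL ht ht1 ht2 hLt
  by_contra hcon
  push Not at hcon
  obtain ⟨g1, g2, g3, -⟩ := hG D W u x y m t v₁ v₂ p q la lb hxy hL ht1 ht2
  set X : Matrix (Fin D) (Fin D) ℂ := (u : Matrix (Fin D) (Fin D) ℂ) with hX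
  have hG0 : G u m t 0 = X ^ (p + q) * t := by
    rw [← hLt.1]
    unfold G
    simp
  have hGn : ∀ s : ℕ, G u m t (s : ℤ) = m * X ^ s * t := by
    intro s
    unfold G
    rw [zpow_natCast, Units.val_pow_eq_pow_val]
  -- `x` acts as `X` at the multiples of `p + 1`
  have hxX : ∀ i : ℕ, x * G u m t ((i : ℤ) * (p + 1)) = X * G u m t ((i : ℤ) * (p + 1)) := by
    intro i
    rw [← hxy, add_mul, hcon i, add_zero]
  -- the values of `G`
  have key : ∀ k : ℕ, G u m t (k : ℤ) = if (p + 1) ∣ k then X ^ k * G u m t 0 else 0 := by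
    intro k
    induction k using Nat.strong_induction_on with
    | _ k ih =>
    rcases Nat.eq_zero_or_pos k with rfl | hk
    · simp
    have h2 : y * G u m t ((k : ℤ) - (q + 1)) = 0 := by
      rcases Nat.lt_or_ge k (q + 1) with h | h
      · have h3 := g3 (q + 1 - k) (by omega) (by omega)
        rw [Nat.cast_sub h.le, neg_sub] at h3
        push_cast at h3
        exact h3
      · have h3 : (k : ℤ) - (q + 1) = ((k - (q + 1) : ℕ) : ℤ) := by
          rw [Nat.cast_sub h]
          push_cast
          rfl
        rw [h3]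
        by_cases h4 : (p + 1) ∣ (k - (q + 1))
        · obtain ⟨i, hi⟩ := h4
          have h5 := hcon i
          rw [hi]
          push_cast
          rw [mul_comm ((p : ℤ) + 1)]
          exact h5
        · rw [ih _ (by omega), if_neg h4, mul_zero]
    rw [g1 k, mul_assoc (X ^ q), h2, mul_zero, add_zero, mul_assoc]
    rcases Nat.lt_or_ge k (p + 1) with h | h
    · have h3 := g2 (p + 1 - k) (by omega) (by omega)
      rw [Nat.cast_sub h.le, neg_sub] at h3
      push_cast at h3
      rw [h3, mul_zero, if_neg]
      intro h4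
      exact absurd (Nat.le_of_dvd hk h4) (by omega)
    · have h3 : (k : ℤ) - (p + 1) = ((k - (p + 1) : ℕ) : ℤ) := by
        rw [Nat.cast_sub h]
        push_cast
        rfl
      rw [h3]
      by_cases h4 : (p + 1) ∣ k
      · have h5 : (p + 1) ∣ (k - (p + 1)) := Nat.dvd_sub h4 dvd_rfl
        rw [if_pos h4]
        have h6 := ih (k - (p + 1)) (by omega)
        rw [if_pos h5] at h6
        obtain ⟨i, hi⟩ := h5
        have h7 := hxX i
        have h8 : ((k - (p + 1) : ℕ) : ℤ) = (i : ℤ) * (p + 1) := by
          rw [hi]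
          push_cast
          ring
        rw [h8, h7, ← h8, h6, ← mul_assoc, ← mul_assoc, ← pow_succ, ← pow_add]
        congr 2
        omega
      · have h5 : ¬ (p + 1) ∣ (k - (p + 1)) := by
          intro h6
          apply h4
          have h7 := Nat.dvd_add h6 (dvd_refl (p + 1))
          rwa [Nat.sub_add_cancel h] at h7
        rw [if_neg h4, ih _ (by omega), if_neg h5, mul_zero, mul_zero]
  -- one of the letters kills `X ^ j * t`
  have hkill : ∀ j : ℕ, x * (X ^ j * t) = 0 ∨ y * (X ^ j * t) = 0 := by
    intro j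
    rcases Nat.lt_or_ge j (p + q) with hj | hj
    · have := hLt.2 j hj
      rwa [mul_assoc, mul_assoc] at this
    · obtain ⟨k, rfl⟩ := Nat.exists_eq_add_of_le hj
      have h1 : X ^ (p + q + k) * t = X ^ k * G u m t 0 := by
        rw [hG0, ← mul_assoc, ← pow_add, add_comm k]
      rw [h1]
      have hkd := Nat.div_add_mod k (p + 1)
      set i := k / (p + 1) with hi
      have hr := Nat.mod_lt k (show 0 < p + 1 by omega)
      have h2 : G u m t ((i : ℤ) * (p + 1)) = X ^ ((p + 1) * i) * G u m t 0 := by
        have h3 := key ((p + 1) * i)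
        rw [if_pos (dvd_mul_right _ _)] at h3
        rw [← h3]
        congr 1
        push_cast
        ring
      rcases Nat.eq_zero_or_pos (k % (p + 1)) with h3 | h3
      · right
        have h4 : k = (p + 1) * i := by omega
        rw [h4, ← h2]
        exact hcon i
      · obtain ⟨r, hr'⟩ : ∃ r, k % (p + 1) = r + 1 := ⟨k % (p + 1) - 1, by omega⟩
        have h4 : k = r + 1 + (p + 1) * i := by omega
        have h5 : X ^ k * G u m t 0 = X ^ r * x * m * (X ^ ((p + 1) * i) * t) := by
          rw [h4, pow_add, mul_assoc, ← h2, pow_succ, mul_assoc, ← hxX i]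
          have h6 : G u m t ((i : ℤ) * (p + 1)) = m * X ^ ((p + 1) * i) * t := by
            rw [← hGn]
            congr 1
            push_cast
            ring
          rw [h6]
          simp only [mul_assoc]
        rw [h5]
        obtain ⟨h6, h7, -⟩ := hL.ha r (by omega)
        rcases h6 with h6 | h6
        · left
          rw [h6] at h7
          calc x * (X ^ r * x * m * (X ^ ((p + 1) * i) * t)) =
              (x * X ^ r * x * m) * (X ^ ((p + 1) * i) * t) := by simp only [mul_assoc]
            _ = 0 := by rw [h7, zero_mul]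
        · right
          rw [h6] at h7
          calc y * (X ^ r * x * m * (X ^ ((p + 1) * i) * t)) =
              (y * X ^ r * x * m) * (X ^ ((p + 1) * i) * t) := by simp only [mul_assoc]
            _ = 0 := by rw [h7, zero_mul]
  -- all the products are multiples of `X ^ j * t`
  have hmul : ∀ j : ℕ, ∀ A ∈ W ^ j, ∃ c : ℂ, A * t = c • (X ^ j * t) := by
    intro j
    induction j with
    | zero =>
      intro A hA
      rw [pow_zero, Submodule.mem_one] at hA
      obtain ⟨c, rfl⟩ := hA
      refine ⟨c, ?_⟩
      rw [pow_zero, one_mul, Algebra.algebraMap_eq_smul_one, smul_mul_assoc, one_mul]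
    | succ j ih =>
      intro A hA
      rw [pow_succ'] at hA
      refine Submodule.mul_induction_on hA ?_ ?_
      · intro w hw B hB
        obtain ⟨c, hc⟩ := ih B hB
        obtain ⟨a, b, hab⟩ := Submodule.mem_span_pair.1 (hW hw)
        rw [mul_assoc, hc, ← hab, mul_smul_comm, add_mul, smul_mul_assoc, smul_mul_assoc]
        have h1 : X ^ (j + 1) * t = x * (X ^ j * t) + y * (X ^ j * t) := by
          rw [← add_mul, hxy, ← mul_assoc, ← pow_succ']
        rcases hkill j with h2 | h2
        · refine ⟨c * b, ?_⟩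
          rw [h1, h2, smul_zero, zero_add, zero_add, smul_smul]
        · refine ⟨c * a, ?_⟩
          rw [h1, h2, smul_zero, add_zero, add_zero, smul_smul]
      · rintro A B ⟨a, ha⟩ ⟨b, hb⟩
        exact ⟨a + b, by rw [add_mul, ha, hb, add_smul]⟩
  -- the contradiction
  have hne : ∃ k l, t k l ≠ 0 := by
    by_contra h
    push Not at h
    exact ht (Matrix.ext h)
  obtain ⟨k, l, hkl⟩ := hne
  have hall : ∀ A : Matrix (Fin D) (Fin D) ℂ, ∃ c : ℂ, A * t = c • (X ^ N * t) := fun A =>
    hmul N A (by rw [hN]; exact Submodule.mem_top)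
  set M := X ^ N * t with hM
  let z0 : Fin D := ⟨0, by omega⟩
  let z1 : Fin D := ⟨1, by omega⟩
  have hz : z0 ≠ z1 := by
    intro h
    exact absurd (congrArg Fin.val h) (by show (0 : ℕ) ≠ 1; omega)
  obtain ⟨c0, h0⟩ := hall (Matrix.single z0 k 1)
  obtain ⟨c1, h1⟩ := hall (Matrix.single z1 k 1)
  have e1 : t k l = c0 * M z0 l := by
    have := congrFun (congrFun h0 z0) l
    rwa [Matrix.single_mul_apply_same, one_mul, Matrix.smul_apply, smul_eq_mul] at this
  have e2 : 0 = c0 * M z1 l := by
    have := congrFun (congrFun h0 z1) l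
    rwa [Matrix.single_mul_apply_of_ne (h := hz.symm), Matrix.smul_apply, smul_eq_mul] at this
  have e3 : t k l = c1 * M z1 l := by
    have := congrFun (congrFun h1 z1) l
    rwa [Matrix.single_mul_apply_same, one_mul, Matrix.smul_apply, smul_eq_mul] at this
  rcases mul_eq_zero.1 e2.symm with h2 | h2
  · rw [h2, zero_mul] at e1
    exact hkl e1
  · rw [h2, mul_zero] at e3
    exact hkl e3

end Pool.Agent.Y781.MPS
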